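import Pool.Agent.Lib.MP_56aee0_co.RW.Base

/-!
# RW / Arrive : attacks in the level `h` bring a guard from another level

Here the level `h` of `D1` is exactly `A`. PROOF. For a state `D'` let `lev D' = {u | (u, h) ∈ D'}`. Let `Φ` be the set of the `S` for which
there is `D' ∈ F` with `lev D' = S`, `|S| = |A|`, and `(u, w) ∈ D' ↔ (u, w) ∈ D1` for all `w ≠ h`. `A ∈ Φ`. If `Φ` were closed under the attacks
`v ∈ Q \ A`, `v ∉ S`, then `OutSec G Q A`. So there are `S ∈ Φ` (with the state `D'`) and `v ∈ Q`, `v ∉ A`, `v ∉ S`, without an answer inside `Φ`.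
The answer to the attack `(v, h)` on `D'` given by `hF` comes from `p ∈ D'`, `p ≠ (v, h)` (as `v ∉ S`). If `p = (u, h)` with `G.Adj u v`: the new
state shows `insert v (S.erase u) ∈ Φ`, impossible. So `p = (v, y)` with `H.Adj y h`, `y ≠ h`; take `D3 = insert (v, h) (D'.erase (v, y)) ∈ F`.
For `w ≠ h` the level `w` of `D3` is contained in the level `w` of `D1`, and `(v, y) ∈ D1`, `(v, y) ∉ D3`, `v ∉ A`: `chp A D3 y < chp A D1 y`.
-/

set_option autoImplicit false

namespace Pool.Agent.Lib.MP_56aee0_co.RW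

open Pool.Agent.Lib.MP_56aee0_co Pool.Agent.Lib.MP_56aee0_co.OC

variable {U W : Type} [Fintype U] [DecidableEq U] [Fintype W] [DecidableEq W]

theorem arrive {G : SimpleGraph U} {H : SimpleGraph W} {Q A : Finset U} (hns : ¬ OutSec G Q A)
    {F : Set (Finset (U × W))} {N : ℕ} (hF : Et (G.boxProd H) (Q ×ˢ (Finset.univ : Finset W)) F N)
    {D1 : Finset (U × W)} (hD : D1 ∈ F) {h : W} (hlev : ∀ u, (u, h) ∈ D1 ↔ u ∈ A) :
    ∃ D3 ∈ F, (∀ w, w ≠ h → chp A D3 w ≤ chp A D1 w) ∧ ∃ y, H.Adj y h ∧ chp A D3 y < chp A D1 y := by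
  by_contra hcon
  apply hns
  refine ⟨{S | S.card = A.card ∧ ∃ D' ∈ F, (∀ u, (u, h) ∈ D' ↔ u ∈ S) ∧
    ∀ u w, w ≠ h → ((u, w) ∈ D' ↔ (u, w) ∈ D1)}, ⟨rfl, D1, hD, hlev, fun _ _ _ => Iff.rfl⟩, ?_⟩
  rintro S ⟨hSc, D', hD', hS, hw⟩
  refine ⟨hSc, fun v hvQ hvA hvS => ?_⟩
  obtain ⟨p, hp, hpv, hpF⟩ := (hF D' hD').2.2 (v, h)
    (Finset.mem_product.2 ⟨hvQ, Finset.mem_univ _⟩)
  have hne : p ≠ (v, h) := by
    rintro rfl
    exact hvS ((hS v).1 hp)
  have hadj := hpv.resolve_left hne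
  rw [SimpleGraph.boxProd_adj] at hadj
  obtain ⟨u, y⟩ := p
  rcases hadj with ⟨huv, hy⟩ | ⟨hyh, hu⟩
  · simp only at huv hy
    subst hy
    have huS : u ∈ S := (hS u).1 hp
    refine ⟨u, huS, huv, ?_, _, hpF, ?_, ?_⟩
    · rw [Finset.card_insert_of_notMem (fun hc => hvS (Finset.mem_of_mem_erase hc)),
        Finset.card_erase_of_mem huS, ← hSc]
      have := Finset.card_pos.2 ⟨u, huS⟩
      omega
    · intro x
      rw [Finset.mem_insert, Finset.mem_insert, Finset.mem_erase, Finset.mem_erase, hS x,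
        Prod.mk.injEq, Ne, Prod.mk.injEq]
      tauto
    · intro x w hwy
      rw [Finset.mem_insert, Finset.mem_erase, ← hw x w hwy, Prod.mk.injEq, Ne, Prod.mk.injEq]
      tauto
  · simp only at hyh hu
    subst hu
    exfalso
    have hyne : y ≠ h := hyh.ne
    apply hcon
    have hsub : ∀ x w, w ≠ h → (x, w) ∈ insert (u, h) (D'.erase (u, y)) → (x, w) ∈ D1 := by
      intro x w hwh hx
      rw [Finset.mem_insert, Finset.mem_erase] at hx
      rcases hx with hx | hx
      · exact absurd (Prod.mk.injEq .. ▸ hx : x = u ∧ w = h).2 hwh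
      · exact (hw x w hwh).1 hx.2
    refine ⟨_, hpF, fun w hwh => ?_, y, hyh, ?_⟩
    · unfold chp
      refine Finset.card_le_card fun x hx => ?_
      rw [Finset.mem_filter] at hx ⊢
      exact ⟨hx.1, hx.2.1, hsub x w hwh hx.2.2⟩
    · unfold chp
      refine Finset.card_lt_card ?_
      rw [Finset.ssubset_iff_of_subset]
      · refine ⟨u, ?_, ?_⟩
        · rw [Finset.mem_filter]
          exact ⟨Finset.mem_univ _, hvA, (hw u y hyne).1 hp⟩
        · rw [Finset.mem_filter]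
          rintro ⟨-, -, hx⟩
          rw [Finset.mem_insert, Finset.mem_erase] at hx
          rcases hx with hx | hx
          · exact hyne (Prod.mk.injEq .. ▸ hx : u = u ∧ y = h).2
          · exact hx.1 rfl
      · intro x hx
        rw [Finset.mem_filter] at hx ⊢
        exact ⟨hx.1, hx.2.1, hsub x y hyne hx.2.2⟩

end Pool.Agent.Lib.MP_56aee0_co.RW
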