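import Mathlib
import Pool.Agent.Lib.MP_56aee0_co.OC.Layer

/-!
# RW : not outside-secure sets and the chip game

`OutSec G Q A`: the guards which stand on `A ⊆ Q` can defend the region `Q` for ever against attacks on vertices of `Q \ A`
(guards only in `Q`). `CF H g Y`: the defender's positions in the chip game with `g` chips on `H`: an attack on a vertex `h` without
chips is answered by a chip of a neighbour `y`, and then any other chips may be put on `h`. `gs H`: the least number of chips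
with which the defender wins.
-/

set_option autoImplicit false

namespace Pool.Agent.Lib.MP_56aee0_co.RW

open Pool.Agent.Lib.MP_56aee0_co Pool.Agent.Lib.MP_56aee0_co.OC

/-- the guards on `A` can defend `Q` against all sequences of attacks on vertices of `Q` outside `A` -/
def OutSec {U : Type} [DecidableEq U] (G : SimpleGraph U) (Q A : Finset U) : Prop :=
  ∃ Φ : Set (Finset U), A ∈ Φ ∧ ∀ S ∈ Φ, S.card = A.card ∧
    ∀ v ∈ Q, v ∉ A → v ∉ S → ∃ u ∈ S, G.Adj u v ∧ insert v (S.erase u) ∈ Φ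

/-- a family of positions with `g` chips which is closed under the attacks of the chip game -/
def CF {W : Type} [Fintype W] (H : SimpleGraph W) (g : ℕ) (Y : Set (W → ℕ)) : Prop :=
  ∀ c ∈ Y, ∑ w, c w = g ∧ ∀ h, c h = 0 →
    ∃ c' ∈ Y, (∀ w, w ≠ h → c' w ≤ c w) ∧ ∃ y, H.Adj y h ∧ c' y < c y

/-- the least number of chips with which the defender wins the chip game -/
noncomputable def gs {W : Type} [Fintype W] (H : SimpleGraph W) : ℕ :=
  sInf {g : ℕ | ∃ Y : Set (W → ℕ), Y.Nonempty ∧ CF H g Y}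

theorem gs_le {W : Type} [Fintype W] {H : SimpleGraph W} {g : ℕ} {Y : Set (W → ℕ)} (h0 : Y.Nonempty)
    (h : CF H g Y) : gs H ≤ g :=
  Nat.sInf_le ⟨Y, h0, h⟩

theorem gs_exists {W : Type} [Fintype W] (H : SimpleGraph W) :
    ∃ Y : Set (W → ℕ), Y.Nonempty ∧ CF H (gs H) Y := by
  have h : ({g : ℕ | ∃ Y : Set (W → ℕ), Y.Nonempty ∧ CF H g Y}).Nonempty := by
    refine ⟨∑ _w : W, 1, {fun _ => 1}, ⟨_, rfl⟩, ?_⟩
    rintro c rfl
    exact ⟨rfl, fun h hh => absurd hh one_ne_zero⟩
  exact Nat.sInf_mem h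

/-- the chips of a state: the number of guards on `(u, h)`, `u ∉ A` -/
def chp {U W : Type} [Fintype U] [DecidableEq U] [DecidableEq W] (A : Finset U) (D : Finset (U × W)) (h : W) : ℕ :=
  (Finset.univ.filter fun u => u ∉ A ∧ (u, h) ∈ D).card

/-- the state `D` belongs to a subfamily of `F` which is closed under the attacks in `Z`, answered by guards in `Z` -/
def Stb {V : Type} [DecidableEq V] (Γ : SimpleGraph V) (Z : Finset V) (F : Set (Finset V)) (D : Finset V) : Prop :=
  ∃ F1 : Set (Finset V), F1 ⊆ F ∧ D ∈ F1 ∧ ∀ D' ∈ F1, ∀ v ∈ Z, ∃ u ∈ D' ∩ Z, (u = v ∨ Γ.Adj u v) ∧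
    insert v (D'.erase u) ∈ F1

end Pool.Agent.Lib.MP_56aee0_co.RW
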