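import Pool.Agent.Lib.MP_56aee0_co.RW.Base
import Pool.Agent.Lib.MP_56aee0_co.OC.Cyc

/-!
# RW / CycGs : the chip number of an odd cycle is at least `b + 1`

PROOF. Suppose `gs C ≤ b` and let `Y` be a closed family with `g = gs C ≤ b` chips. After an attack on `h` (without chips) the new position `c'` has
`c' h ≥ 1`, `c' w ≤ c w` for `w ≠ h`, and a neighbour of `h` loses a chip.
(1) There is `c ∈ Y` with `∑_{Iv b} c ≥ b`: induction over `J ⊆ Iv b` as in `card_le_gs` (`J ⊆ Iv b` has a position with at least `|J|` chips on `J`: an attack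
on `h ∈ Iv b \ J` without chips takes a chip of a neighbour, which is not in `Iv b`, and the chips which leave `J` go to `h`).
So `g = b` and all chips of `c` are on `Iv b`. Every `h ∈ Iv b` has a chip (otherwise attack it: its neighbours are not in `Iv b` and have no chips). So
`c v = 1` for `v ∈ Iv b` and `c v = 0` otherwise.
(2) Attack `1`: the new position `c'` has `c' 0 = 0` or `c' 2 = 0`, `c' v ≤ 1` for `v ∈ Iv b`, `c' v = 0` for the other `v ≠ 1`.
 * `c' 0 = 0`: attack `2b` (no chip): its neighbours `2b - 1` and `0` have no chips. Contradiction.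
 * `c' 2 = 0`: the chips on the even numbers `≥ 2` are at most `b - 2` (only on `4, …, 2b-2`, at most one each). Claim, by induction over
   `J ⊆ Od b`: there is a position `d ∈ Y` with (chips on even numbers `≥ 2`) `+ |J| ≤ b - 2` and without chips on `Od b \ J`. Step: attack `v ∈ Od b \ J`: a
   neighbour of `v` (even, `≥ 2`) loses a chip, the other chips on even numbers do not increase, only `v` gets chips. `J = Od b`: `b - 1 ≤ b - 2`.
-/

set_option autoImplicit false

namespace Pool.Agent.Lib.MP_56aee0_co.RW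

open Pool.Agent.Lib.MP_56aee0_co Pool.Agent.Lib.MP_56aee0_co.OC

private theorem cg_sum_lt {W : Type} [Fintype W] [DecidableEq W] {c c' : W → ℕ} {h y : W}
    (S : Finset W) (hle : ∀ w, w ≠ h → c' w ≤ c w) (hy : c' y < c y) (hh : h ∉ S) (hyS : y ∈ S) :
    ∑ w ∈ S, c' w + 1 ≤ ∑ w ∈ S, c w := by
  apply Nat.succ_le_of_lt
  apply Finset.sum_lt_sum
  · intro w hw
    exact hle w fun e => hh (e ▸ hw)
  · exact ⟨y, hyS, hy⟩

private theorem cg_sum_gt {W : Type} [Fintype W] [DecidableEq W] {c c' : W → ℕ} {h y : W} {g : ℕ}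
    (S : Finset W) (hc : ∑ w, c w = g) (hc' : ∑ w, c' w = g)
    (hle : ∀ w, w ≠ h → c' w ≤ c w) (hy : c' y < c y) (hh : h ∈ S) (hyS : y ∉ S) :
    ∑ w ∈ S, c w + 1 ≤ ∑ w ∈ S, c' w := by
  have h1 := cg_sum_lt (Sᶜ) hle hy (by simp [hh]) (by simp [hyS])
  have h2 := Finset.sum_add_sum_compl S c
  have h3 := Finset.sum_add_sum_compl S c'
  omega

theorem gs_odd_cycle {b : ℕ} (hb : 2 ≤ b) : b + 1 ≤ gs (SimpleGraph.cycleGraph (2 * b + 1)) := by
  classical
  by_contra hlt
  have hg : gs (SimpleGraph.cycleGraph (2 * b + 1)) ≤ b := by omega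
  obtain ⟨Y, ⟨c₀, hc₀⟩, hY⟩ := gs_exists (SimpleGraph.cycleGraph (2 * b + 1))
  set g := gs (SimpleGraph.cycleGraph (2 * b + 1)) with hgdef
  -- step 1
  have step1 : ∀ J : Finset (Fin (2 * b + 1)), J ⊆ Iv b →
      ∃ c ∈ Y, J.card ≤ ∑ v ∈ J, c v := by
    intro J
    induction J using Finset.induction_on with
    | empty => exact fun _ => ⟨c₀, hc₀, by simp⟩
    | insert h J hhJ ih =>
      intro hJ
      obtain ⟨c, hc, hcard⟩ := ih fun x hx => hJ (Finset.mem_insert_of_mem hx)
      have hhI : h ∈ Iv b := hJ (Finset.mem_insert_self _ _)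
      rw [Finset.card_insert_of_notMem hhJ]
      by_cases hch : c h = 0
      · obtain ⟨hs, hm⟩ := hY c hc
        obtain ⟨c', hc', hle, y, hadj, hy⟩ := hm h hch
        refine ⟨c', hc', ?_⟩
        have hyS : y ∉ insert h J := by
          intro hyS
          exact indep_Iv hb y (hJ hyS) h hhI hadj
        have h1 := cg_sum_gt (insert h J) hs (hY c' hc').1 hle hy (Finset.mem_insert_self _ _) hyS
        rw [Finset.sum_insert hhJ, hch, zero_add] at h1
        omega
      · refine ⟨c, hc, ?_⟩
        rw [Finset.sum_insert hhJ]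
        omega
  obtain ⟨c, hc, hcI⟩ := step1 (Iv b) (Finset.Subset.refl _)
  rw [card_Iv] at hcI
  obtain ⟨hs, hm⟩ := hY c hc
  have hcompl := Finset.sum_add_sum_compl (Iv b) c
  have hz : ∑ v ∈ (Iv b)ᶜ, c v = 0 := by omega
  have hout : ∀ v, v ∉ Iv b → c v = 0 := by
    intro v hv
    exact (Finset.sum_eq_zero_iff.1 hz) v (by simp [hv])
  have hone : ∀ v ∈ Iv b, 1 ≤ c v := by
    intro v hv
    by_contra h0
    obtain ⟨c', hc', hle, y, hadj, hy⟩ := hm v (by omega)
    have hyI : y ∉ Iv b := fun hyI => indep_Iv hb y hyI v hv hadj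
    have := hout y hyI
    omega
  have hc1 : ∀ v ∈ Iv b, c v = 1 := by
    have hsum : ∑ v ∈ Iv b, c v = ∑ _v ∈ Iv b, 1 := by
      rw [Finset.sum_const, smul_eq_mul, mul_one, card_Iv]
      omega
    intro v hv
    exact ((Finset.sum_eq_sum_iff_of_le hone).1 hsum.symm v hv).symm
  have hc1' : ∀ v, c v ≤ 1 := by
    intro v
    by_cases hv : v ∈ Iv b
    · rw [hc1 v hv]
    · rw [hout v hv]; omega
  -- step 2
  let z : Fin (2 * b + 1) := ⟨0, by omega⟩
  let o : Fin (2 * b + 1) := ⟨1, by omega⟩
  let l : Fin (2 * b + 1) := ⟨2 * b, by omega⟩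
  have ho : c o = 0 := hout o (by
    unfold Iv
    rw [Finset.mem_filter]
    rintro ⟨-, h1, -⟩
    simp [o] at h1)
  obtain ⟨c', hc', hle, y, hadj, hy⟩ := hm o ho
  obtain ⟨hs', hm'⟩ := hY c' hc'
  have hy0 : c' y = 0 := by have := hc1' y; omega
  rw [cyc_adj hb] at hadj
  have hyv : y.val = 0 ∨ y.val = 2 := by
    simp only [o] at hadj
    omega
  rcases hyv with hyv | hyv
  · -- attack `2 b`
    have hl : c' l = 0 := by
      have h1 := hle l (by
        intro e
        have := congrArg Fin.val e
        simp only [l, o] at this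
        omega)
      have h2 : c l = 0 := hout l (by
        unfold Iv
        rw [Finset.mem_filter]
        rintro ⟨-, -, h1⟩
        simp [l] at h1)
      omega
    obtain ⟨c'', hc'', hle', y', hadj', hy'⟩ := hm' l hl
    rw [cyc_adj hb] at hadj'
    have hy'v : y'.val = 2 * b - 1 ∨ y'.val = 0 := by
      have := y'.isLt
      simp only [l] at hadj'
      omega
    rcases hy'v with h1 | h1
    · have h2 : c' y' ≤ c y' := hle y' (by
        intro e
        have := congrArg Fin.val e
        simp only [o] at this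
        omega)
      have h3 : c y' = 0 := hout y' (by
        unfold Iv
        rw [Finset.mem_filter]
        rintro ⟨-, h4, -⟩
        omega)
      omega
    · have h2 : y' = y := Fin.ext (by omega)
      rw [h2] at hy'
      omega
  · -- the even numbers
    set E2 : Finset (Fin (2 * b + 1)) := Finset.univ.filter fun v => v.val % 2 = 0 ∧ 2 ≤ v.val
      with hE2
    have hmem : ∀ v, v ∈ E2 ↔ (v.val % 2 = 0 ∧ 2 ≤ v.val) := fun v => by
      rw [hE2, Finset.mem_filter]
      exact ⟨fun h => h.2, fun h => ⟨Finset.mem_univ _, h⟩⟩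
    have hzE : z ∉ E2 := by
      rw [hmem]; simp [z]
    have hcE : ∑ v ∈ E2, c v + 1 ≤ b := by
      have h1 : ∑ v ∈ insert z E2, c v ≤ ∑ v, c v :=
        Finset.sum_le_sum_of_subset (Finset.subset_univ _)
      rw [Finset.sum_insert hzE, hc1 z (by
        unfold Iv
        rw [Finset.mem_filter]
        exact ⟨Finset.mem_univ _, by simp [z], by simp only [z]; omega⟩)] at h1
      omega
    have hcE' : ∑ v ∈ E2, c' v + 1 ≤ ∑ v ∈ E2, c v :=
      cg_sum_lt E2 hle hy (by rw [hmem]; simp [o]) (by rw [hmem]; omega)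
    have step2 : ∀ J : Finset (Fin (2 * b + 1)), J ⊆ Od b →
        ∃ d ∈ Y, ∑ v ∈ E2, d v + J.card + 2 ≤ b ∧ ∀ v ∈ Od b, v ∉ J → d v = 0 := by
      intro J
      induction J using Finset.induction_on with
      | empty =>
        refine fun _ => ⟨c', hc', by rw [Finset.card_empty]; omega, ?_⟩
        intro v hv _
        unfold Od at hv
        rw [Finset.mem_filter] at hv
        have h1 := hle v (by
          intro e
          have := congrArg Fin.val e
          simp only [o] at this
          omega)
        have h2 := hout v (by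
          unfold Iv
          rw [Finset.mem_filter]
          rintro ⟨-, h4, -⟩
          omega)
        omega
      | insert v J hvJ ih =>
        intro hJ
        obtain ⟨d, hd, hd1, hd2⟩ := ih fun x hx => hJ (Finset.mem_insert_of_mem hx)
        have hvO : v ∈ Od b := hJ (Finset.mem_insert_self _ _)
        obtain ⟨d', hd', hle', y', hadj', hy'⟩ := (hY d hd).2 v (hd2 v hvO hvJ)
        have hvO' := hvO
        unfold Od at hvO'
        rw [Finset.mem_filter] at hvO'
        rw [cyc_adj hb] at hadj'
        have hlt' := v.isLt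
        have h1 := cg_sum_lt E2 hle' hy' (by rw [hmem]; omega) (by rw [hmem]; omega)
        refine ⟨d', hd', ?_, ?_⟩
        · rw [Finset.card_insert_of_notMem hvJ]
          omega
        · intro w hw hwJ
          have h2 : w ≠ v := fun e => hwJ (by rw [e]; exact Finset.mem_insert_self _ _)
          have h3 := hle' w h2
          have h4 := hd2 w hw fun h => hwJ (Finset.mem_insert_of_mem h)
          omega
    obtain ⟨d, hd, hd1, -⟩ := step2 (Od b) (Finset.Subset.refl _)
    rw [card_Od hb] at hd1
    omega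

end Pool.Agent.Lib.MP_56aee0_co.RW
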