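import Pool.Agent.Lib.MP_56aee0_co.RW.Base
import Pool.Agent.Lib.MP_56aee0_co.OC.Cyc

/-!
# RW / OddW : in an odd cycle the set `Iv b = {0, 2, …, 2b-2}` is not outside-secure

PROOF. Suppose `Φ` as in `OutSec` (`Q = univ`, `A = Iv b ∈ Φ`). Attack `1 ∉ Iv b`: the answer is `u = 0` or `u = 2` (`cyc_adj`).
 * `u = 0`: the new set is `{1, 2, 4, …, 2b-2}`; attack `2b ∉ Iv b`: its neighbours `2b-1` and `0` are not in the set. Contradiction.
 * `u = 2`: the new set is `{0, 1, 4, …, 2b-2}`. Claim, by induction over `J ⊆ Od b`: there is `S ∈ Φ` with `J ⊆ S` and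
   `|{v ∈ S | v.val even, 2 ≤ v.val}| + |J| ≤ b - 2`, and `S ∩ Od b ⊆ J`. Start: `J = ∅`, the even numbers `≥ 2` in the set are `4, …, 2b-2`. Step:
   `v ∈ Od b`, `v ∉ J`, so `v ∉ S`, `v ∉ Iv b`; the answer is an (even, `≥ 2`) neighbour of `v`. For `J = Od b`: `b - 1 ≤ b - 2`. Contradiction.
-/

set_option autoImplicit false

namespace Pool.Agent.Lib.MP_56aee0_co.RW

open Pool.Agent.Lib.MP_56aee0_co Pool.Agent.Lib.MP_56aee0_co.OC

theorem cyc_not_outSec {b : ℕ} (hb : 2 ≤ b) :
    ¬ OutSec (SimpleGraph.cycleGraph (2 * b + 1)) Finset.univ (Iv b) := by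
  rintro ⟨Φ, hA, hΦ⟩
  have hadj := fun u v : Fin (2 * b + 1) => cyc_adj hb u v
  have hIv : ∀ u : Fin (2 * b + 1), u ∈ Iv b ↔ (u.val % 2 = 0 ∧ u.val < 2 * b) := by
    intro u
    unfold Iv
    simp
  have hOd : ∀ w : Fin (2 * b + 1), w ∈ Od b ↔ (w.val % 2 = 1 ∧ 3 ≤ w.val) := by
    intro w
    unfold Od
    simp
  have hEm : ∀ w : Fin (2 * b + 1), w ∈ Em b ↔ (w.val % 2 = 0 ∧ 4 ≤ w.val ∧ w.val < 2 * b) := by
    intro w
    unfold Em
    simp
  obtain ⟨o, ho⟩ : ∃ o : Fin (2 * b + 1), o.val = 1 := ⟨⟨1, by omega⟩, rfl⟩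
  have hoI : o ∉ Iv b := by
    rw [hIv]; omega
  obtain ⟨u, hu, hau, hF⟩ := (hΦ _ hA).2 o (Finset.mem_univ o) hoI hoI
  rw [hadj] at hau
  rw [hIv] at hu
  have hul := u.isLt
  have hu' : u.val = 0 ∨ u.val = 2 := by omega
  have hm : ∀ w : Fin (2 * b + 1), w ∈ insert o ((Iv b).erase u) ↔
      (w.val = 1 ∨ (w.val ≠ u.val ∧ w.val % 2 = 0 ∧ w.val < 2 * b)) := by
    intro w
    rw [Finset.mem_insert, Finset.mem_erase, hIv, Fin.ext_iff, ho, ne_eq, Fin.ext_iff]
  rcases hu' with hu0 | hu2
  · obtain ⟨t, ht⟩ : ∃ t : Fin (2 * b + 1), t.val = 2 * b := ⟨⟨2 * b, by omega⟩, rfl⟩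
    have htI : t ∉ Iv b := by
      rw [hIv]; omega
    have htS : t ∉ insert o ((Iv b).erase u) := by
      rw [hm]; omega
    obtain ⟨u', hu', hau', -⟩ := (hΦ _ hF).2 t (Finset.mem_univ t) htI htS
    rw [hm] at hu'
    rw [hadj] at hau'
    have := u'.isLt
    omega
  · have key : ∀ J : Finset (Fin (2 * b + 1)), J ⊆ Od b → ∃ S ∈ Φ, J ⊆ S ∧
        (S.filter fun v => v.val % 2 = 0 ∧ 2 ≤ v.val).card + J.card ≤ b - 2 ∧
          ∀ v ∈ S, v ∈ Od b → v ∈ J := by
      intro J
      induction J using Finset.induction_on with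
      | empty =>
        intro _
        refine ⟨_, hF, Finset.empty_subset _, ?_, ?_⟩
        · rw [Finset.card_empty, add_zero, ← card_Em hb]
          refine Finset.card_le_card fun w hw => ?_
          rw [Finset.mem_filter, hm] at hw
          rw [hEm]
          omega
        · intro v hv hvO
          rw [hm] at hv
          rw [hOd] at hvO
          omega
      | insert v J hvJ ih =>
        intro hsub
        have hvO : v ∈ Od b := hsub (Finset.mem_insert_self v J)
        have hJO : J ⊆ Od b := fun w hw => hsub (Finset.mem_insert_of_mem hw)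
        obtain ⟨S, hS, hJS, hcard, hSO⟩ := ih hJO
        have hvS : v ∉ S := fun h => hvJ (hSO v h hvO)
        have hvI : v ∉ Iv b := by
          rw [hOd] at hvO
          rw [hIv]
          omega
        obtain ⟨x, hx, hax, hF'⟩ := (hΦ _ hS).2 v (Finset.mem_univ v) hvI hvS
        have hvO' := (hOd v).1 hvO
        rw [hadj] at hax
        have hxl := x.isLt
        have hvl := v.isLt
        have hx' : x.val % 2 = 0 ∧ 2 ≤ x.val := by omega
        have hxf : x ∈ S.filter fun v => v.val % 2 = 0 ∧ 2 ≤ v.val :=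
          Finset.mem_filter.2 ⟨hx, hx'⟩
        refine ⟨_, hF', ?_, ?_, ?_⟩
        · intro w hw
          rw [Finset.mem_insert] at hw
          rw [Finset.mem_insert]
          rcases hw with hw | hw
          · exact Or.inl hw
          · refine Or.inr (Finset.mem_erase.2 ⟨?_, hJS hw⟩)
            rintro rfl
            have := (hOd w).1 (hJO hw)
            omega
        · have h1 : (insert v (S.erase x)).filter (fun v => v.val % 2 = 0 ∧ 2 ≤ v.val) ⊆
              (S.filter fun v => v.val % 2 = 0 ∧ 2 ≤ v.val).erase x := by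
            intro w hw
            rw [Finset.mem_filter, Finset.mem_insert, Finset.mem_erase] at hw
            rw [Finset.mem_erase, Finset.mem_filter]
            obtain ⟨hw1 | hw1, hw2⟩ := hw
            · exfalso
              rw [hw1] at hw2
              omega
            · exact ⟨hw1.1, hw1.2, hw2⟩
          have h2 := Finset.card_le_card h1
          rw [Finset.card_erase_of_mem hxf] at h2
          have h3 : 0 < (S.filter fun v => v.val % 2 = 0 ∧ 2 ≤ v.val).card :=
            Finset.card_pos.2 ⟨x, hxf⟩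
          rw [Finset.card_insert_of_notMem hvJ]
          omega
        · intro w hw hwO
          rw [Finset.mem_insert, Finset.mem_erase] at hw
          rw [Finset.mem_insert]
          rcases hw with hw | hw
          · exact Or.inl hw
          · exact Or.inr (hSO w hw.2 hwO)
    obtain ⟨S, -, -, hcard, -⟩ := key (Od b) (Finset.Subset.refl _)
    rw [card_Od hb] at hcard
    omega

end Pool.Agent.Lib.MP_56aee0_co.RW
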