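import Pool.Agent.Lib.MP_56aee0_co.RW.Base

/-!
# RW / SmallB : odd closed walks of the complement

`K = Hᶜ`. An odd closed walk of `K` is a function `x : ℕ → W` with `K.Adj (x j) (x (j+1))` for `j ≤ 2 p`, `x (2 p + 1) = x 0`.

`exists_odd`: if `edn H ≥ 3` there is an odd closed walk of `K`: otherwise `K` is 2-colourable (Mathlib:
`SimpleGraph.two_colorable_iff_forall_loop_even` or a similar name; `x j = w.getVert j`), and the two colour classes are cliques of `H`: `edn H ≤ 2` by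
`edn_le_cover`.

`exists_min_odd`: take an odd closed walk with the smallest `p`. Then `p ≥ 1` and for `2 ≤ j ≤ 2 p`: `x j ≠ x 0` and `x j ≠ x 1`: if `x j = x 0` with
`j` odd, then `x 0, …, x j` is a shorter odd closed walk; with `j` even, `x j, x (j+1), …, x (2p+1) = x 0 = x j` is one (length `2p+1-j`). If `x j = x 1`: with
`j` even, `x 1, …, x j` has the odd length `j - 1 < 2p+1`; with `j` odd, `x 0, x 1 = x j, x (j+1), …, x (2p+1)` has the length `2p+1-(j-1)`, odd, smaller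
for `j ≥ 3`.
-/

set_option autoImplicit false

namespace Pool.Agent.Lib.MP_56aee0_co.RW

open Pool.Agent.Lib.MP_56aee0_co Pool.Agent.Lib.MP_56aee0_co.OC

variable {W : Type} [Fintype W] [DecidableEq W]

theorem exists_odd {H : SimpleGraph W} (h : 3 ≤ edn H) :
    ∃ (p : ℕ) (x : ℕ → W), x (2 * p + 1) = x 0 ∧ ∀ j, j ≤ 2 * p → x j ≠ x (j + 1) ∧ ¬ H.Adj (x j) (x (j + 1)) := by
  have h1 : ¬ Hᶜ.Colorable 2 := by
    rintro ⟨c⟩
    have h2 : edn H ≤ 2 := by
      apply edn_le_cover H (fun w => c w)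
      intro u v huv hne
      by_contra hadj
      exact c.valid ((SimpleGraph.compl_adj H u v).mpr ⟨hne, hadj⟩) huv
    omega
  rw [SimpleGraph.two_colorable_iff_forall_loop_even] at h1
  push Not at h1
  obtain ⟨u, w, hw⟩ := h1
  obtain ⟨p, hp⟩ := Nat.not_even_iff_odd.mp hw
  refine ⟨p, fun j => w.getVert j, ?_, fun j hj => ?_⟩
  · show w.getVert (2 * p + 1) = w.getVert 0
    rw [← hp, SimpleGraph.Walk.getVert_length, SimpleGraph.Walk.getVert_zero]
  · have h3 := w.adj_getVert_succ (i := j) (by omega)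
    exact (SimpleGraph.compl_adj H _ _).mp h3

theorem exists_min_odd {H : SimpleGraph W} (h : 3 ≤ edn H) :
    ∃ (p : ℕ) (x : ℕ → W), 1 ≤ p ∧ x (2 * p + 1) = x 0 ∧
      (∀ j, j ≤ 2 * p → x j ≠ x (j + 1) ∧ ¬ H.Adj (x j) (x (j + 1))) ∧
      ∀ j, 2 ≤ j → j ≤ 2 * p → x j ≠ x 0 ∧ x j ≠ x 1 := by
  classical
  have hex : ∃ p : ℕ, ∃ x : ℕ → W, x (2 * p + 1) = x 0 ∧
      ∀ j, j ≤ 2 * p → x j ≠ x (j + 1) ∧ ¬ H.Adj (x j) (x (j + 1)) := exists_odd h
  obtain ⟨x, hx0, hx⟩ := Nat.find_spec hex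
  have hmin : ∀ q, q < Nat.find hex → ¬ ∃ x : ℕ → W, x (2 * q + 1) = x 0 ∧
      ∀ j, j ≤ 2 * q → x j ≠ x (j + 1) ∧ ¬ H.Adj (x j) (x (j + 1)) := fun q hq =>
    Nat.find_min hex hq
  generalize Nat.find hex = p at hx0 hx hmin
  have hp : 1 ≤ p := by
    by_contra hp
    have hp0 : p = 0 := by omega
    subst hp0
    exact (hx 0 le_rfl).1 hx0.symm
  refine ⟨p, x, hp, hx0, hx, fun j hj2 hjp => ⟨fun he => ?_, fun he => ?_⟩⟩
  · rcases Nat.even_or_odd' j with ⟨q, hq | hq⟩
    · refine hmin (p - q) (by omega) ⟨fun i => x (j + i), ?_, fun i hi => ?_⟩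
      · show x (j + (2 * (p - q) + 1)) = x j
        rw [show j + (2 * (p - q) + 1) = 2 * p + 1 by omega, hx0, he]
      · exact hx (j + i) (by omega)
    · refine hmin q (by omega) ⟨x, ?_, fun i hi => hx i (by omega)⟩
      rw [← hq, he]
  · rcases Nat.even_or_odd' j with ⟨q, hq | hq⟩
    · refine hmin (q - 1) (by omega) ⟨fun i => x (1 + i), ?_, fun i hi => ?_⟩
      · show x (1 + (2 * (q - 1) + 1)) = x 1
        rw [show 1 + (2 * (q - 1) + 1) = j by omega, he]
      · exact hx (1 + i) (by omega)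
    · refine hmin (p - q) (by omega)
        ⟨fun i => if i = 0 then x 0 else x (2 * q + i), ?_, fun i hi => ?_⟩
      · show (if 2 * (p - q) + 1 = 0 then x 0 else x (2 * q + (2 * (p - q) + 1))) =
          if (0 : ℕ) = 0 then x 0 else x (2 * q + 0)
        rw [if_neg (by omega), if_pos rfl,
          show 2 * q + (2 * (p - q) + 1) = 2 * p + 1 by omega, hx0]
      · show (if i = 0 then x 0 else x (2 * q + i)) ≠
            (if i + 1 = 0 then x 0 else x (2 * q + (i + 1))) ∧
          ¬ H.Adj (if i = 0 then x 0 else x (2 * q + i))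
            (if i + 1 = 0 then x 0 else x (2 * q + (i + 1)))
        rw [if_neg (Nat.succ_ne_zero i)]
        by_cases hi0 : i = 0
        · rw [if_pos hi0, hi0, show 2 * q + (0 + 1) = j by omega, he]
          exact hx 0 (Nat.zero_le _)
        · rw [if_neg hi0]
          exact hx (2 * q + i) (by omega)

end Pool.Agent.Lib.MP_56aee0_co.RW
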