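import Pool.Agent.Lib.MP_56aee0_co.RW.SmallA
import Pool.Agent.Lib.MP_56aee0_co.RW.SmallB

/-!
# RW / SmallC : graphs with `edn ≥ 3`

`three_le_gs`: suppose `gs H ≤ 2`, so `gs H = 2` (`two_le_gs`); take the closed family `Y` with `2` chips (`gs_exists`) and the odd closed walk `x` of
`exists_odd`. A new position `c'` after an attack on `h` has `c' h ≥ 1` (the totals are equal). (a) For `u ≠ v`, not adjacent in `H`, the
position with one chip on `u` and one chip on `v` is in `Y`: both chips on `u` is impossible (attack `v`: no chip on a neighbour), both chips on `v`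
too (attack `u`). From any position attack `u` (if it has no chip), then `v` (if it has no chip): after the last attack `v` has a chip; the answer to
the attack on `v` did not use the chip on `u` (not adjacent), so the new position is one chip on `u` and one on `v`, or both on `v` (impossible).
(b) Claim: for `i ≤ p` the position
`x 0, x (2i+1)` is in `Y` and `x 0 ≠ x (2i+1)`; `i = 0` is (a). Step `i → i+1` (`i < p`): let `z = x (2i+2)` (not adjacent in `H` to `x (2i+1)` and to
`x (2i+3)`). If `x (2i+3) = x (2i+1)`: nothing to do. If `x (2i+3) = x 0`: `z` is chipless and no chip is on a neighbour: contradiction. Otherwise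
attack `x (2i+3)`: the new position is `{x 0, x (2i+3)}` (good), or `{x (2i+1), x (2i+3)}` or both chips on `x (2i+3)`: in the last two
cases attack `z`: contradiction. For `i = p` we get `x 0 ≠ x (2p+1)`, a contradiction.

`exists_not_outSec`: take `p`, `x` of `exists_min_odd`, `A = {x 0, x 1}`. Suppose `OutSec G univ A` with the family `Φ` (2-element sets). Claim: for
`i < p`: `{x 0, x (2i+1)} ∈ Φ`, `x 0 ≠ x (2i+1)`; `i = 0`: `A ∈ Φ`. Step `i → i+1`, `i + 1 < p`... and at the end `i = p - 1`: the set `{x 0, x (2p-1)} ∈ Φ`, attack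
`x (2p)`: it is not in `A` and not adjacent to `x (2p-1)` nor to `x (2p+1) = x 0`: contradiction. Step: `S = {x 0, x (2i+1)}`, `z = x (2i+2)`,
`y = x (2i+3)`, both not in `A` (`2i+3 ≤ 2p`). If `y = x (2i+1)` nothing to do (`y = x 0` is excluded). Otherwise attack `y ∉ S`: the new set
is `{x 0, y}` (good) or `{x (2i+1), y}`: then attack `z`, not adjacent to both: contradiction.
-/

set_option autoImplicit false

namespace Pool.Agent.Lib.MP_56aee0_co.RW

open Pool.Agent.Lib.MP_56aee0_co Pool.Agent.Lib.MP_56aee0_co.OC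

variable {W : Type} [Fintype W] [DecidableEq W]

private def SmallC_pos (u v : W) : W → ℕ := fun w => (if w = u then 1 else 0) + (if w = v then 1 else 0)

omit [Fintype W] in
private theorem SmallC_comm (u v : W) : SmallC_pos u v = SmallC_pos v u := by
  funext w
  exact Nat.add_comm _ _

private theorem SmallC_split {n : ℕ} {c : W → ℕ} (hc : ∑ w, c w = n + 1) :
    ∃ (a : W) (d : W → ℕ), (∀ w, c w = d w + if w = a then 1 else 0) ∧ ∑ w, d w = n := by
  obtain ⟨a, ha⟩ : ∃ a, c a ≠ 0 := by
    by_contra hcon
    push Not at hcon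
    rw [Finset.sum_eq_zero fun w _ => hcon w] at hc
    omega
  have hd : ∀ w, c w = (c w - if w = a then 1 else 0) + if w = a then 1 else 0 := by
    intro w
    by_cases hw : w = a
    · subst hw
      rw [if_pos rfl]
      omega
    · rw [if_neg hw]
      omega
  refine ⟨a, fun w => c w - if w = a then 1 else 0, hd, ?_⟩
  have h1 : ∑ w, c w = ∑ w, (c w - if w = a then 1 else 0) + ∑ w, (if w = a then 1 else 0) := by
    rw [← Finset.sum_add_distrib]
    exact Finset.sum_congr rfl fun w _ => hd w
  rw [Finset.sum_ite_eq' Finset.univ a, if_pos (Finset.mem_univ a), hc] at h1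
  exact (Nat.add_right_cancel h1).symm

private theorem SmallC_two {c : W → ℕ} (hc : ∑ w, c w = 2) : ∃ a b, c = SmallC_pos a b := by
  obtain ⟨a, d, hd, hs⟩ := SmallC_split hc
  obtain ⟨b, e, he, hs'⟩ := SmallC_split hs
  refine ⟨a, b, ?_⟩
  funext w
  have h0 : e w = 0 := Finset.sum_eq_zero_iff.1 hs' w (Finset.mem_univ w)
  rw [hd w, he w, h0]
  show _ = (if w = a then 1 else 0) + (if w = b then 1 else 0)
  omega

omit [Fintype W] in
private theorem SmallC_pos_ne {u v w : W} (h : SmallC_pos u v w ≠ 0) : w = u ∨ w = v := by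
  by_contra hcon
  push Not at hcon
  apply h
  show (if w = u then 1 else 0) + (if w = v then 1 else 0) = 0
  rw [if_neg hcon.1, if_neg hcon.2]

omit [Fintype W] in
private theorem SmallC_left (u v : W) : 1 ≤ SmallC_pos u v u := by
  show 1 ≤ (if u = u then 1 else 0) + (if u = v then 1 else 0)
  rw [if_pos rfl]
  omega

omit [Fintype W] in
private theorem SmallC_right (u v : W) : 1 ≤ SmallC_pos u v v := by
  rw [SmallC_comm]
  exact SmallC_left v u

omit [Fintype W] in
/-- one chip stays on `b`, the other one moves to `h` -/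
private theorem SmallC_aux {H : SimpleGraph W} {u v h b y : W} (hb : b = u ∨ b = v) (hbh : b ≠ h)
    (hy : H.Adj y h) (hlt : SmallC_pos h b y < SmallC_pos u v y) :
    (H.Adj u h ∧ b = v) ∨ (H.Adj v h ∧ b = u) := by
  have hyuv : y = u ∨ y = v := SmallC_pos_ne (by omega)
  by_cases huv : u = v
  · subst huv
    have hyu : y = u := hyuv.elim id id
    subst hyu
    exact Or.inl ⟨hy, hb.elim id id⟩
  · have hyb : y ≠ b := by
      rintro rfl
      have h1 : 1 ≤ SmallC_pos h y y := SmallC_right h y
      have h2 : SmallC_pos u v y ≤ 1 := by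
        show (if y = u then 1 else 0) + (if y = v then 1 else 0) ≤ 1
        by_cases h3 : y = u
        · rw [if_pos h3, if_neg (fun h4 => huv (h3.symm.trans h4))]
        · rw [if_neg h3]
          split_ifs <;> omega
      omega
    rcases hb with rfl | rfl
    · rcases hyuv with rfl | rfl
      · exact absurd rfl hyb
      · exact Or.inr ⟨hy, rfl⟩
    · rcases hyuv with rfl | rfl
      · exact Or.inl ⟨hy, rfl⟩
      · exact absurd rfl hyb

private theorem SmallC_step {H : SimpleGraph W} {Y : Set (W → ℕ)} (hY : CF H 2 Y) {u v h : W}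
    (hm : SmallC_pos u v ∈ Y) (hu : h ≠ u) (hv : h ≠ v) :
    (H.Adj u h ∧ SmallC_pos v h ∈ Y) ∨ (H.Adj v h ∧ SmallC_pos u h ∈ Y) ∨
      (SmallC_pos h h ∈ Y ∧ (H.Adj u h ∨ H.Adj v h)) := by
  have hch : SmallC_pos u v h = 0 := by
    by_contra hne
    rcases SmallC_pos_ne hne with h1 | h1
    · exact hu h1
    · exact hv h1
  obtain ⟨hsum, hatt⟩ := hY _ hm
  obtain ⟨c', hc', hle, y, hy, hlt⟩ := hatt h hch
  obtain ⟨hsum', _⟩ := hY _ hc'
  obtain ⟨a, b, rfl⟩ := SmallC_two hsum'
  have hyuv : y = u ∨ y = v := SmallC_pos_ne (by omega)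
  have ha : a ≠ h → a = u ∨ a = v := fun hah => SmallC_pos_ne (by
    have h1 := hle a hah
    have h2 := SmallC_left a b
    omega)
  have hb : b ≠ h → b = u ∨ b = v := fun hbh => SmallC_pos_ne (by
    have h1 := hle b hbh
    have h2 := SmallC_right a b
    omega)
  by_cases hah : a = h
  · subst hah
    by_cases hbh : b = a
    · subst hbh
      right
      right
      refine ⟨hc', ?_⟩
      rcases hyuv with rfl | rfl
      · exact Or.inl hy
      · exact Or.inr hy
    · rcases SmallC_aux (hb hbh) hbh hy hlt with ⟨h1, rfl⟩ | ⟨h1, rfl⟩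
      · left
        exact ⟨h1, by rw [SmallC_comm]; exact hc'⟩
      · right
        left
        exact ⟨h1, by rw [SmallC_comm]; exact hc'⟩
  · by_cases hbh : b = h
    · subst hbh
      rw [SmallC_comm] at hlt
      rcases SmallC_aux (ha hah) hah hy hlt with ⟨h1, rfl⟩ | ⟨h1, rfl⟩
      · left
        exact ⟨h1, hc'⟩
      · right
        left
        exact ⟨h1, hc'⟩
    · exfalso
      have h0 : SmallC_pos a b h = 0 := by
        by_contra hne
        rcases SmallC_pos_ne hne with h1 | h1
        · exact hah h1.symm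
        · exact hbh h1.symm
      have hall : ∀ w ∈ Finset.univ, SmallC_pos a b w ≤ SmallC_pos u v w := by
        intro w _
        by_cases hw : w = h
        · rw [hw, h0]
          exact Nat.zero_le _
        · exact hle w hw
      have := Finset.sum_lt_sum hall ⟨y, Finset.mem_univ y, hlt⟩
      omega

theorem three_le_gs {H : SimpleGraph W} (h : 3 ≤ edn H) : 3 ≤ gs H := by
  by_contra hcon
  have h2 := two_le_gs (H := H) (by omega)
  have hg : gs H = 2 := by omega
  obtain ⟨Y, ⟨c0, hc0⟩, hY⟩ := gs_exists H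
  rw [hg] at hY
  have hno2 : ∀ u v z, z ≠ u → z ≠ v → ¬ H.Adj u z → ¬ H.Adj v z → SmallC_pos u v ∉ Y := by
    intro u v z hzu hzv hu hv hm
    rcases SmallC_step hY hm hzu hzv with h1 | h1 | h1
    · exact hu h1.1
    · exact hv h1.1
    · exact h1.2.elim hu hv
  have ha : ∀ u v, u ≠ v → ¬ H.Adj u v → SmallC_pos u v ∈ Y := by
    intro u v huv hadj
    obtain ⟨b, hb⟩ : ∃ b, SmallC_pos u b ∈ Y := by
      obtain ⟨a, b, rfl⟩ := SmallC_two (hY _ hc0).1
      by_cases hua : u = a
      · subst hua
        exact ⟨b, hc0⟩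
      · by_cases hub : u = b
        · subst hub
          exact ⟨a, by rw [SmallC_comm]; exact hc0⟩
        · rcases SmallC_step hY hc0 hua hub with h1 | h1 | h1
          · exact ⟨b, by rw [SmallC_comm]; exact h1.2⟩
          · exact ⟨a, by rw [SmallC_comm]; exact h1.2⟩
          · exact ⟨u, h1.1⟩
    by_cases hvb : v = b
    · subst hvb
      exact hb
    · rcases SmallC_step hY hb huv.symm hvb with h1 | h1 | h1
      · exact absurd h1.1 hadj
      · exact h1.2
      · exact absurd h1.1 (hno2 v v u huv huv (fun h3 => hadj h3.symm) (fun h3 => hadj h3.symm))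
  obtain ⟨p, x, hx, hxw⟩ := exists_odd h
  have key : ∀ i, i ≤ p → SmallC_pos (x 0) (x (2 * i + 1)) ∈ Y ∧ x 0 ≠ x (2 * i + 1) := by
    intro i
    induction i with
    | zero =>
      intro _
      have h1 := hxw 0 (Nat.zero_le _)
      exact ⟨ha _ _ h1.1 h1.2, h1.1⟩
    | succ i ih =>
      intro hi
      obtain ⟨hm, hne⟩ := ih (by omega)
      have h1 := hxw (2 * i + 1) (by omega)
      have h3 := hxw (2 * i + 2) (by omega)
      have e1 : 2 * i + 1 + 1 = 2 * i + 2 := rfl
      have e2 : 2 * i + 2 + 1 = 2 * (i + 1) + 1 := rfl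
      rw [e1] at h1
      rw [e2] at h3
      by_cases hyb : x (2 * (i + 1) + 1) = x (2 * i + 1)
      · rw [hyb]
        exact ⟨hm, hne⟩
      · by_cases hya : x (2 * (i + 1) + 1) = x 0
        · exfalso
          rw [hya] at h3
          exact hno2 _ _ (x (2 * i + 2)) h3.1 h1.1.symm (fun h4 => h3.2 h4.symm) h1.2 hm
        · have hz : ∀ b, (b = x (2 * i + 1) ∨ b = x (2 * (i + 1) + 1)) →
              SmallC_pos b (x (2 * (i + 1) + 1)) ∉ Y := by
            intro b hb
            rcases hb with rfl | rfl
            · exact hno2 _ _ (x (2 * i + 2)) h1.1.symm h3.1 h1.2 (fun h4 => h3.2 h4.symm)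
            · exact hno2 _ _ (x (2 * i + 2)) h3.1 h3.1 (fun h4 => h3.2 h4.symm)
                (fun h4 => h3.2 h4.symm)
          rcases SmallC_step hY hm hya hyb with h4 | h4 | h4
          · exact absurd h4.2 (hz _ (Or.inl rfl))
          · exact ⟨h4.2, fun h5 => hya h5.symm⟩
          · exact absurd h4.1 (hz _ (Or.inr rfl))
  exact (key p le_rfl).2 hx.symm

theorem exists_not_outSec {G : SimpleGraph W} (h : 3 ≤ edn G) :
    ∃ A : Finset W, A.card = 2 ∧ (∀ a ∈ A, ∀ b ∈ A, ¬ G.Adj a b) ∧ ¬ OutSec G Finset.univ A := by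
  obtain ⟨p, x, hp, hx, hxw, hmin⟩ := exists_min_odd h
  have h01 := hxw 0 (Nat.zero_le _)
  rw [Nat.zero_add] at h01
  refine ⟨{x 0, x 1}, Finset.card_pair h01.1, ?_, ?_⟩
  · intro a ha b hb hab
    rw [Finset.mem_insert, Finset.mem_singleton] at ha hb
    rcases ha with rfl | rfl
    · rcases hb with rfl | rfl
      · exact hab.ne rfl
      · exact h01.2 hab
    · rcases hb with rfl | rfl
      · exact h01.2 hab.symm
      · exact hab.ne rfl
  · rintro ⟨Φ, hA, hΦ⟩
    have hnotA : ∀ j, 2 ≤ j → j ≤ 2 * p → x j ∉ ({x 0, x 1} : Finset W) := by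
      intro j h2 h3 hj
      rw [Finset.mem_insert, Finset.mem_singleton] at hj
      rcases hj with hj | hj
      · exact (hmin j h2 h3).1 hj
      · exact (hmin j h2 h3).2 hj
    have hno : ∀ u v z, z ∉ ({x 0, x 1} : Finset W) → z ≠ u → z ≠ v → ¬ G.Adj u z → ¬ G.Adj v z →
        ({u, v} : Finset W) ∉ Φ := by
      intro u v z hz hzu hzv hu hv hm
      obtain ⟨w, hw, hadj, _⟩ := (hΦ _ hm).2 z (Finset.mem_univ z) hz (by
        rw [Finset.mem_insert, Finset.mem_singleton]
        rintro (h1 | h1)
        · exact hzu h1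
        · exact hzv h1)
      rw [Finset.mem_insert, Finset.mem_singleton] at hw
      rcases hw with rfl | rfl
      · exact hu hadj
      · exact hv hadj
    have key : ∀ i, i < p → ({x 0, x (2 * i + 1)} : Finset W) ∈ Φ ∧ x 0 ≠ x (2 * i + 1) := by
      intro i
      induction i with
      | zero =>
        intro _
        exact ⟨hA, h01.1⟩
      | succ i ih =>
        intro hi
        obtain ⟨hm, hne⟩ := ih (by omega)
        have h1 := hxw (2 * i + 1) (by omega)
        have h3 := hxw (2 * i + 2) (by omega)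
        have e1 : 2 * i + 1 + 1 = 2 * i + 2 := rfl
        have e2 : 2 * i + 2 + 1 = 2 * (i + 1) + 1 := rfl
        rw [e1] at h1
        rw [e2] at h3
        have hya : x (2 * (i + 1) + 1) ≠ x 0 := (hmin _ (by omega) (by omega)).1
        have hyA := hnotA (2 * (i + 1) + 1) (by omega) (by omega)
        have hzA := hnotA (2 * i + 2) (by omega) (by omega)
        by_cases hyb : x (2 * (i + 1) + 1) = x (2 * i + 1)
        · rw [hyb]
          exact ⟨hm, hne⟩
        · refine ⟨?_, hya.symm⟩
          obtain ⟨w, hw, hadj, hnew⟩ := (hΦ _ hm).2 _ (Finset.mem_univ _) hyA (by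
            rw [Finset.mem_insert, Finset.mem_singleton]
            rintro (h4 | h4)
            · exact hya h4
            · exact hyb h4)
          rw [Finset.mem_insert, Finset.mem_singleton] at hw
          rcases hw with rfl | rfl
          · exfalso
            rw [Finset.erase_insert (by rw [Finset.mem_singleton]; exact hne)] at hnew
            exact hno _ _ (x (2 * i + 2)) hzA h3.1 h1.1.symm (fun h4 => h3.2 h4.symm) h1.2 hnew
          · rw [Finset.pair_comm (x 0), Finset.erase_insert (by
              rw [Finset.mem_singleton]; exact hne.symm)] at hnew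
            rw [Finset.pair_comm]
            exact hnew
    obtain ⟨q, rfl⟩ : ∃ q, p = q + 1 := ⟨p - 1, by omega⟩
    obtain ⟨hm, hne⟩ := key q (by omega)
    have h1 := hxw (2 * q + 1) (by omega)
    have h3 := hxw (2 * q + 2) (by omega)
    have e1 : 2 * q + 1 + 1 = 2 * q + 2 := rfl
    have e2 : 2 * q + 2 + 1 = 2 * (q + 1) + 1 := rfl
    rw [e1] at h1
    rw [e2, hx] at h3
    exact hno _ _ (x (2 * q + 2)) (hnotA _ (by omega) (by omega)) h3.1 h1.1.symm
      (fun h4 => h3.2 h4.symm) h1.2 hm

/-- from `one_le_gs`, `two_le_gs`, `three_le_gs` -/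
theorem edn_le_gs_of_le_three {H : SimpleGraph W} (h : edn H ≤ 3) : edn H ≤ gs H := by
  rcases Nat.lt_or_ge (edn H) 1 with h0 | h1
  · omega
  · rcases Nat.lt_or_ge (edn H) 2 with h2 | h2
    · have := one_le_gs h1
      omega
    · rcases Nat.lt_or_ge (edn H) 3 with h3 | h3
      · have := two_le_gs h2
        omega
      · have := three_le_gs h3
        omega

end Pool.Agent.Lib.MP_56aee0_co.RW
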