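import Pool.Agent.Lib.MP_56aee0_co.RW.MainW
import Pool.Agent.Lib.MP_56aee0_co.RW.SmallC
import Pool.Agent.Lib.MP_56aee0_co.RW.OddW
import Pool.Agent.Lib.MP_56aee0_co.RW.CycGs
import Pool.Agent.Lib.MP_56aee0_co.OC.Red

/-!
# RW / Cores : several cores which are pairwise not adjacent
-/

set_option autoImplicit false

namespace Pool.Agent.Lib.MP_56aee0_co.RW

open Pool.Agent.Lib.MP_56aee0_co Pool.Agent.Lib.MP_56aee0_co.OC

variable {U W : Type} [Fintype U] [DecidableEq U] [Fintype W] [DecidableEq W]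

omit [Fintype U] [Fintype W] in
theorem sep_prod {G : SimpleGraph U} (H : SimpleGraph W) {P Q : Finset U} (Z : Finset W)
    (h : ∀ u ∈ P, ∀ v ∈ Q, u ≠ v ∧ ¬ G.Adj u v) :
    ∀ p ∈ P ×ˢ Z, ∀ q ∈ Q ×ˢ Z, p ≠ q ∧ ¬ (G.boxProd H).Adj p q := by
  intro p hp q hq
  rw [Finset.mem_product] at hp hq
  obtain ⟨h1, h2⟩ := h p.1 hp.1 q.1 hq.1
  refine ⟨?_, ?_⟩
  · rintro rfl
    exact h1 rfl
  · intro hadj
    rw [SimpleGraph.boxProd_adj] at hadj
    rcases hadj with ⟨ha, _⟩ | ⟨_, ha⟩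
    · exact h2 ha
    · exact h1 ha

theorem cores_bound {G : SimpleGraph U} (H : SimpleGraph W) {q : ℕ} (I : Finset U) (Q A : Fin q → Finset U)
    (hI : ∀ u ∈ I, ∀ v ∈ I, ¬ G.Adj u v)
    (hIQ : ∀ i, ∀ u ∈ I, ∀ v ∈ Q i, u ≠ v ∧ ¬ G.Adj u v)
    (hQQ : ∀ i j, i ≠ j → ∀ u ∈ Q i, ∀ v ∈ Q j, u ≠ v ∧ ¬ G.Adj u v)
    (hAQ : ∀ i, A i ⊆ Q i) (hA : ∀ i, ∀ u ∈ A i, ∀ v ∈ A i, ¬ G.Adj u v)
    (hns : ∀ i, ¬ OutSec G (Q i) (A i)) :
    (I.card + ∑ i, (A i).card) * edn H + q * gs H ≤ edn (G.boxProd H) := by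
  have h1 := indep_brick G H I hI
  have h2 : ∀ i, (A i).card * edn H + gs H ≤
      ednOn (G.boxProd H) (Q i ×ˢ (Finset.univ : Finset W)) := fun i => gs_bound H (hAQ i) (hA i) (hns i)
  have h3 := sum_ednOn_le (Γ := G.boxProd H) (Finset.univ : Finset (Fin q))
    (fun i => Q i ×ˢ (Finset.univ : Finset W))
    (fun i _ j _ hij => sep_prod H Finset.univ (hQQ i j hij))
  have h4 := ednOn_add_le (Γ := G.boxProd H) (Z1 := I ×ˢ (Finset.univ : Finset W))
    (Z2 := (Finset.univ : Finset (Fin q)).biUnion fun i => Q i ×ˢ (Finset.univ : Finset W)) (by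
      intro p hp r hr
      rw [Finset.mem_biUnion] at hr
      obtain ⟨i, _, hr⟩ := hr
      exact sep_prod H Finset.univ (hIQ i) p hp r hr)
  have h5 := ednOn_mono (Γ := G.boxProd H) (Finset.subset_univ
    (I ×ˢ (Finset.univ : Finset W) ∪
      (Finset.univ : Finset (Fin q)).biUnion fun i => Q i ×ˢ (Finset.univ : Finset W)))
  rw [← edn_eq_ednOn] at h5
  have h6 : ∑ i : Fin q, ((A i).card * edn H + gs H) ≤
      ∑ i : Fin q, ednOn (G.boxProd H) (Q i ×ˢ (Finset.univ : Finset W)) :=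
    Finset.sum_le_sum fun i _ => h2 i
  rw [Finset.sum_add_distrib, ← Finset.sum_mul, Finset.sum_const, Finset.card_univ, Fintype.card_fin,
    smul_eq_mul] at h6
  rw [add_mul]
  have h7 := h6.trans h3
  have h8 := (Nat.add_le_add h1 h7).trans (h4.trans h5)
  omega

/-- one core -/
theorem core_bound {G : SimpleGraph U} (H : SimpleGraph W) {A : Finset U}
    (hA : ∀ u ∈ A, ∀ v ∈ A, ¬ G.Adj u v) (hns : ¬ OutSec G Finset.univ A) :
    A.card * edn H + gs H ≤ edn (G.boxProd H) := by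
  have h := gs_bound H (Finset.subset_univ A) hA hns
  rwa [Finset.univ_product_univ, ← edn_eq_ednOn] at h

/-- the product inequality if `edn G ≤ 3` and `edn H ≤ gs H` -/
theorem q1_of_le_three {G : SimpleGraph U} {H : SimpleGraph W} (hG : edn G ≤ 3) (hH : edn H ≤ gs H) :
    edn G * edn H ≤ edn (G.boxProd H) := by
  by_cases h2 : edn G ≤ 2
  · obtain ⟨I, hI⟩ := G.exists_isNIndepSet_indepNum
    have h := indep_brick G H I (fun x hx y hy hadj => hI.isIndepSet hx hy hadj.ne hadj)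
    have h' := ednOn_mono (Γ := G.boxProd H) (Finset.subset_univ (I ×ˢ (Finset.univ : Finset W)))
    rw [← edn_eq_ednOn] at h'
    rw [hI.card_eq] at h
    exact (Nat.mul_le_mul_right _ (edn_le_indepNum_of_le_two h2)).trans (h.trans h')
  · obtain ⟨A, hA2, hA, hns⟩ := exists_not_outSec (G := G) (by omega)
    have h := core_bound H hA hns
    rw [hA2] at h
    have h3 : edn G = 3 := by omega
    rw [h3]
    omega

end Pool.Agent.Lib.MP_56aee0_co.RW
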