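import Pool.Agent.Lib.MP_56aee0_co.RW.Base

/-!
# RW / Fill : occupy `A × {h}` without changing the chips

PROOF. `F1` as in `Stb` for `D`. Let `F2 = {D' ∈ F1 | ∀ u w, u ∉ A → ((u, w) ∈ D' ↔ (u, w) ∈ D)}`; it contains `D` and is closed under the
attacks in `Z = A ×ˢ univ` answered in `Z` (such a move changes nothing outside `Z`). `exists_occupied` for `F2`, `Z` and
`Y = A ×ˢ {h}` (independent: `(a, h)`, `(b, h)` adjacent would need `G.Adj a b`; `H.Adj h h` is false).
-/

set_option autoImplicit false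

namespace Pool.Agent.Lib.MP_56aee0_co.RW

open Pool.Agent.Lib.MP_56aee0_co Pool.Agent.Lib.MP_56aee0_co.OC

variable {U W : Type} [Fintype U] [DecidableEq U] [Fintype W] [DecidableEq W]

theorem fill {G : SimpleGraph U} {H : SimpleGraph W} {A : Finset U}
    (hA : ∀ a ∈ A, ∀ b ∈ A, ¬ G.Adj a b) {F : Set (Finset (U × W))} {D : Finset (U × W)}
    (hD : Stb (G.boxProd H) (A ×ˢ (Finset.univ : Finset W)) F D) (h : W) :
    ∃ D1 ∈ F, (∀ a ∈ A, (a, h) ∈ D1) ∧ ∀ u w, u ∉ A → ((u, w) ∈ D1 ↔ (u, w) ∈ D) := by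
  classical
  obtain ⟨F1, hF1, hDF1, hcl⟩ := hD
  obtain ⟨D1, hD1, hY⟩ := exists_occupied (Γ := G.boxProd H)
    (Z := A ×ˢ (Finset.univ : Finset W)) (Y := A ×ˢ ({h} : Finset W))
    (F1 := {D' | D' ∈ F1 ∧ ∀ u w, u ∉ A → ((u, w) ∈ D' ↔ (u, w) ∈ D)})
    (by
      rintro D' ⟨hD', hsame⟩ v hv
      obtain ⟨u, hu, huv, hF'⟩ := hcl D' hD' v hv
      refine ⟨u, hu, huv, hF', ?_⟩
      intro a w ha
      rw [← hsame a w ha]
      have hvA : v.1 ∈ A := (Finset.mem_product.mp hv).1
      have huA : u.1 ∈ A := (Finset.mem_product.mp (Finset.mem_inter.mp hu).2).1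
      constructor
      · intro h1
        rcases Finset.mem_insert.mp h1 with h2 | h2
        · rw [← h2] at hvA
          exact absurd hvA ha
        · exact Finset.mem_of_mem_erase h2
      · intro h1
        refine Finset.mem_insert_of_mem (Finset.mem_erase.mpr ⟨?_, h1⟩)
        intro h2
        rw [← h2] at huA
        exact ha huA)
    ⟨D, hDF1, fun u w _ => Iff.rfl⟩
    (by
      intro p hp
      exact Finset.mem_product.mpr ⟨(Finset.mem_product.mp hp).1, Finset.mem_univ _⟩)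
    (by
      intro p hp q hq hadj
      obtain ⟨hp1, hp2⟩ := Finset.mem_product.mp hp
      obtain ⟨hq1, hq2⟩ := Finset.mem_product.mp hq
      rw [Finset.mem_singleton] at hp2 hq2
      rw [SimpleGraph.boxProd_adj] at hadj
      rcases hadj with h1 | h1
      · exact hA _ hp1 _ hq1 h1.1
      · rw [hp2, hq2] at h1
        exact H.irrefl h1.1)
  refine ⟨D1, hF1 hD1.1, fun a ha => hY (Finset.mem_product.mpr ⟨ha, ?_⟩), hD1.2⟩
  exact Finset.mem_singleton_self h

end Pool.Agent.Lib.MP_56aee0_co.RW
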