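import Pool.Agent.Lib.MP_56aee0_co.RW.Base

/-!
# RW / StbB : from any state to a stable state

PROOF of `to_stb`. `Z = A ×ˢ univ ⊆ Q ×ˢ univ`. Let `R = {D' ∈ F | ∀ h, chp A D' h ≤ chp A D h}`, it contains `D`. For `D' ∈ R` and `v ∈ Z`: if `v ∈ D'`
then `insert v (D'.erase v) = D' ∈ R`; otherwise the answer `u ∈ D'` of `hF` gives `D'' = insert v (D'.erase u) ∈ F`, and
`chp A D'' h ≤ chp A D' h` for all `h`, because `v.1 ∈ A` (the new guard is not a chip). So `R` satisfies the hypothesis of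
`exists_max_closed` (with `k = N`); take `D4` in the family `F1` obtained; `F1 ⊆ R ⊆ F`, so `D4` is stable.
`chips_card`: for `D ⊆ Q ×ˢ univ`: `|D| = |D ∩ Z| + ∑ h, chp A D h` (the guards `(u, h)` with `u ∉ A`, counted by levels).
-/

set_option autoImplicit false

namespace Pool.Agent.Lib.MP_56aee0_co.RW

open Pool.Agent.Lib.MP_56aee0_co Pool.Agent.Lib.MP_56aee0_co.OC

variable {U W : Type} [Fintype U] [DecidableEq U] [Fintype W] [DecidableEq W]

theorem to_stb {G : SimpleGraph U} {H : SimpleGraph W} {Q A : Finset U} (hAQ : A ⊆ Q)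
    {F : Set (Finset (U × W))} {N : ℕ} (hF : Et (G.boxProd H) (Q ×ˢ (Finset.univ : Finset W)) F N)
    {D : Finset (U × W)} (hD : D ∈ F) :
    ∃ D4 ∈ F, Stb (G.boxProd H) (A ×ˢ (Finset.univ : Finset W)) F D4 ∧ ∀ h, chp A D4 h ≤ chp A D h := by
  classical
  have hmove : ∀ D' : Finset (U × W), ∀ v u : U × W, v.1 ∈ A → ∀ h,
      chp A (insert v (D'.erase u)) h ≤ chp A D' h := by
    intro D' v u hv h
    refine Finset.card_le_card ?_
    intro a ha
    rw [Finset.mem_filter] at ha ⊢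
    refine ⟨Finset.mem_univ _, ha.2.1, ?_⟩
    rcases Finset.mem_insert.mp ha.2.2 with h1 | h1
    · exact absurd (by rw [← h1] at hv; exact hv) ha.2.1
    · exact Finset.mem_of_mem_erase h1
  obtain ⟨F1, hF1, ⟨D4, hD4⟩, c, hc⟩ := exists_max_closed (Γ := G.boxProd H)
    (Z := A ×ˢ (Finset.univ : Finset W)) (F := {D' | D' ∈ F ∧ ∀ h, chp A D' h ≤ chp A D h})
    (k := N) (by
      rintro D' ⟨hD'F, hD'c⟩
      obtain ⟨hsub, hcard, hans⟩ := hF D' hD'F
      refine ⟨hcard, fun v hv => ?_⟩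
      by_cases hvD : v ∈ D'
      · refine ⟨v, hvD, Or.inl rfl, ?_⟩
        rw [Finset.insert_erase hvD]
        exact ⟨hD'F, hD'c⟩
      · have hvA : v.1 ∈ A := (Finset.mem_product.mp hv).1
        obtain ⟨u, hu, huv, hu'⟩ := hans v (Finset.mem_product.mpr ⟨hAQ hvA, Finset.mem_univ _⟩)
        exact ⟨u, hu, huv, hu', fun h => (hmove D' v u hvA h).trans (hD'c h)⟩)
    ⟨D, hD, fun h => le_rfl⟩
  exact ⟨D4, (hF1 hD4).1, ⟨F1, fun D' h => (hF1 h).1, hD4, fun D' hD' => (hc D' hD').2⟩,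
    (hF1 hD4).2⟩

theorem chips_card (A : Finset U) (D : Finset (U × W)) :
    D.card = (D ∩ (A ×ˢ (Finset.univ : Finset W))).card + ∑ h, chp A D h := by
  classical
  have h1 : D.card = (D ∩ (A ×ˢ (Finset.univ : Finset W))).card +
      (D \ (A ×ˢ (Finset.univ : Finset W))).card := by
    rw [add_comm]
    exact (Finset.card_sdiff_add_card_inter D _).symm
  have h2 : (D \ (A ×ˢ (Finset.univ : Finset W))).card = ∑ h, chp A D h := by
    rw [Finset.card_eq_sum_card_fiberwise (f := Prod.snd) (t := (Finset.univ : Finset W))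
      (fun x _ => by simp)]
    refine Finset.sum_congr rfl fun h _ => ?_
    unfold chp
    refine Finset.card_bij (fun p _ => p.1) ?_ ?_ ?_
    · rintro ⟨a, b⟩ hp
      simp only [Finset.mem_filter, Finset.mem_sdiff, Finset.mem_product, Finset.mem_univ,
        and_true, true_and] at hp ⊢
      obtain ⟨⟨h3, h4⟩, h5⟩ := hp
      exact ⟨h4, h5 ▸ h3⟩
    · rintro ⟨a, b⟩ hp ⟨a', b'⟩ hp' heq
      have h5 : b = h := (Finset.mem_filter.mp hp).2
      have h6 : b' = h := (Finset.mem_filter.mp hp').2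
      have h7 : a = a' := heq
      rw [h5, h6, h7]
    · intro a ha
      obtain ⟨-, h3, h4⟩ := Finset.mem_filter.mp ha
      refine ⟨(a, h), ?_, rfl⟩
      simp only [Finset.mem_filter, Finset.mem_sdiff, Finset.mem_product, Finset.mem_univ,
        and_true]
      exact ⟨h4, h3⟩
  rw [h1, h2]

end Pool.Agent.Lib.MP_56aee0_co.RW
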