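import Pool.Agent.Lib.MP_56aee0_co.RW.StbA
import Pool.Agent.Lib.MP_56aee0_co.RW.StbB
import Pool.Agent.Lib.MP_56aee0_co.RW.Fill
import Pool.Agent.Lib.MP_56aee0_co.RW.Arrive

/-!
# RW / MainW : the main inequality

PROOF. `N = ednOn (G □ H) (Q ×ˢ univ)`, `F` from `ednOn_exists`; `to_stb` gives a stable state, `stb_card` and `chips_card` give
`|A| edn H ≤ N`; put `g = N - |A| edn H`. Let `Y` be the set of the `c : W → ℕ` with `∑ c = g` for which there is a stable `D ∈ F` with
`chp A D h ≤ c h` for all `h`. `Y` is not empty: a stable `D` has `∑ h, chp A D h ≤ g`; add the missing chips anywhere (if `W` is empty then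
`g = 0`: `N = 0`, because `D ⊆ Q ×ˢ univ = ∅`). `CF H g Y`: let `c ∈ Y` with the stable state `D`, `c h = 0`, so `chp A D h = 0`. `fill` gives
`D1 ∈ F` with `(a, h) ∈ D1` for `a ∈ A` and the same guards as `D` outside `A ×ˢ univ`; so `(u, h) ∈ D1 ↔ u ∈ A` (`chp A D h = 0`) and
`chp A D1 = chp A D`. `arrive` gives `D3 ∈ F` and `y`, `to_stb` for `D3` gives a stable `D4 ∈ F` with `chp A D4 w ≤ chp A D3 w` for all `w`; so
`chp A D4 w ≤ c w` for `w ≠ h` and `chp A D4 y < c y`. Define `c' w = chp A D4 w` for `w ≠ h` and `c' h = g - ∑_{w ≠ h} chp A D4 w`, which is at least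
`chp A D4 h`, because `∑ w, chp A D4 w ≤ g`.
Then `gs H ≤ g` by `gs_le`.
-/

set_option autoImplicit false

namespace Pool.Agent.Lib.MP_56aee0_co.RW

open Pool.Agent.Lib.MP_56aee0_co Pool.Agent.Lib.MP_56aee0_co.OC

variable {U W : Type} [Fintype U] [DecidableEq U] [Fintype W] [DecidableEq W]

theorem gs_bound {G : SimpleGraph U} (H : SimpleGraph W) {Q A : Finset U} (hAQ : A ⊆ Q)
    (hA : ∀ a ∈ A, ∀ b ∈ A, ¬ G.Adj a b) (hns : ¬ OutSec G Q A) :
    A.card * edn H + gs H ≤ ednOn (G.boxProd H) (Q ×ˢ (Finset.univ : Finset W)) := by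
  classical
  obtain ⟨N, hN⟩ : ∃ N, N = ednOn (G.boxProd H) (Q ×ˢ (Finset.univ : Finset W)) := ⟨_, rfl⟩
  obtain ⟨F, ⟨D0, hD0⟩, hF⟩ := ednOn_exists (G.boxProd H) (Q ×ˢ (Finset.univ : Finset W))
  rw [← hN] at hF ⊢
  -- the chips of a stable state
  have hchips : ∀ D ∈ F, Stb (G.boxProd H) (A ×ˢ (Finset.univ : Finset W)) F D →
      A.card * edn H + ∑ h, chp A D h ≤ N := by
    intro D hD hS
    have h1 := stb_card hA hS
    have h2 := chips_card A D
    have h3 := (hF D hD).2.1
    omega
  obtain ⟨D4, hD4, hS4, -⟩ := to_stb hAQ hF hD0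
  have h5 := hchips D4 hD4 hS4
  obtain ⟨g, hg⟩ : ∃ g, g = N - A.card * edn H := ⟨_, rfl⟩
  have hchips' : ∀ D ∈ F, Stb (G.boxProd H) (A ×ˢ (Finset.univ : Finset W)) F D →
      ∑ h, chp A D h ≤ g := by
    intro D hD hS
    have := hchips D hD hS
    omega
  have hgs : gs H ≤ g := by
    refine gs_le (Y := {c | ∑ w, c w = g ∧ ∃ D ∈ F,
      Stb (G.boxProd H) (A ×ˢ (Finset.univ : Finset W)) F D ∧ ∀ h, chp A D h ≤ c h}) ?_ ?_
    · -- not empty
      rcases isEmpty_or_nonempty W with hW | ⟨⟨w0⟩⟩
      · refine ⟨fun _ => 0, ?_, D4, hD4, hS4, fun h => (hW.false h).elim⟩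
        have h6 : D4 ⊆ Q ×ˢ (Finset.univ : Finset W) := (hF D4 hD4).1
        have h7 : D4.card = N := (hF D4 hD4).2.1
        have h8 : D4 = ∅ := by
          rw [Finset.eq_empty_iff_forall_notMem]
          intro p _
          exact hW.false p.2
        rw [h8, Finset.card_empty] at h7
        rw [Finset.sum_const_zero]
        omega
      · have h6 := hchips' D4 hD4 hS4
        have h7 := Finset.add_sum_erase Finset.univ (fun h => chp A D4 h) (Finset.mem_univ w0)
        refine ⟨Function.update (fun h => chp A D4 h) w0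
          (g - ∑ h ∈ Finset.univ.erase w0, chp A D4 h), ?_, D4, hD4, hS4, fun h => ?_⟩
        · rw [Finset.sum_update_of_mem (Finset.mem_univ w0), ← Finset.erase_eq]
          omega
        · by_cases hh : h = w0
          · rw [hh, Function.update_self]
            omega
          · rw [Function.update_of_ne hh]
    · rintro c ⟨hc, D, hD, hS, hDc⟩
      refine ⟨hc, fun h hch => ?_⟩
      obtain ⟨D1, hD1, hfill, hsame⟩ := fill hA hS h
      have hchp : ∀ w, chp A D1 w = chp A D w := by
        intro w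
        unfold chp
        congr 1
        ext u
        simp only [Finset.mem_filter, Finset.mem_univ, true_and]
        constructor
        · rintro ⟨h1, h2⟩
          exact ⟨h1, (hsame u w h1).1 h2⟩
        · rintro ⟨h1, h2⟩
          exact ⟨h1, (hsame u w h1).2 h2⟩
      have hlev : ∀ u, (u, h) ∈ D1 ↔ u ∈ A := by
        intro u
        refine ⟨fun h1 => ?_, fun h1 => hfill u h1⟩
        by_contra h2
        have h3 : 0 < chp A D1 h := by
          unfold chp
          refine Finset.card_pos.2 ⟨u, ?_⟩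
          simp only [Finset.mem_filter, Finset.mem_univ, true_and]
          exact ⟨h2, h1⟩
        have h4 := hDc h
        rw [hchp h] at h3
        omega
      obtain ⟨D3, hD3, h31, y, hy, h32⟩ := arrive hns hF hD1 hlev
      obtain ⟨D5, hD5, hS5, h51⟩ := to_stb hAQ hF hD3
      have h6 := hchips' D5 hD5 hS5
      have h7 := Finset.add_sum_erase Finset.univ (fun w => chp A D5 w) (Finset.mem_univ h)
      have hle : ∀ w, w ≠ h → chp A D5 w ≤ c w := by
        intro w hw
        have h8 := h51 w
        have h9 := h31 w hw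
        have h10 := hDc w
        rw [hchp w] at h9
        omega
      refine ⟨Function.update (fun w => chp A D5 w) h
        (g - ∑ w ∈ Finset.univ.erase h, chp A D5 w), ⟨?_, D5, hD5, hS5, fun w => ?_⟩,
        fun w hw => ?_, y, hy, ?_⟩
      · rw [Finset.sum_update_of_mem (Finset.mem_univ h), ← Finset.erase_eq]
        omega
      · by_cases hw : w = h
        · rw [hw, Function.update_self]
          omega
        · rw [Function.update_of_ne hw]
      · rw [Function.update_of_ne hw]
        exact hle w hw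
      · rw [Function.update_of_ne (H.ne_of_adj hy)]
        have h8 := h51 y
        have h10 := hDc y
        rw [hchp y] at h32
        omega
  omega

end Pool.Agent.Lib.MP_56aee0_co.RW
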