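import Pool.Agent.Lib.MP_56aee0_co.RW.Base

/-!
# RW / SmallA : the chip number and the independence number
-/

set_option autoImplicit false

namespace Pool.Agent.Lib.MP_56aee0_co.RW

open Pool.Agent.Lib.MP_56aee0_co Pool.Agent.Lib.MP_56aee0_co.OC

variable {W : Type} [Fintype W] [DecidableEq W]

/-- Take a closed family `Y` with `g = gs H` chips. Claim, by induction over `J ⊆ I`: there is `c ∈ Y` with `|J| ≤ ∑_{w ∈ J} c w`. Let
`h ∈ I`, `h ∉ J`. If `c h ≥ 1` the same `c` works for `insert h J`. If `c h = 0`: the answer `c'` has `c' w ≤ c w` for `w ≠ h` and `c' y < c y` for a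
neighbour `y` of `h`; `y ∉ I`, so `y ∉ insert h J`; since the totals are equal,
`∑_{insert h J} c' = g - ∑_{outside} c' ≥ g - ∑_{outside} c + 1 = ∑_{insert h J} c + 1 ≥ |J| + 1`. For `J = I`: `|I| ≤ g`. -/
theorem card_le_gs {H : SimpleGraph W} {I : Finset W} (hI : ∀ a ∈ I, ∀ b ∈ I, ¬ H.Adj a b) : I.card ≤ gs H := by
  obtain ⟨Y, ⟨c0, hc0⟩, hY⟩ := gs_exists H
  have key : ∀ J : Finset W, J ⊆ I → ∃ c ∈ Y, J.card ≤ ∑ w ∈ J, c w := by
    intro J
    induction J using Finset.induction_on with
    | empty => intro _; exact ⟨c0, hc0, by simp⟩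
    | insert h J hhJ ih =>
      intro hsub
      obtain ⟨c, hc, hcard⟩ := ih ((Finset.subset_insert h J).trans hsub)
      have hhI : h ∈ I := hsub (Finset.mem_insert_self h J)
      by_cases hch : c h = 0
      · obtain ⟨c', hc', hle, y, hy, hlt⟩ := (hY c hc).2 h hch
        refine ⟨c', hc', ?_⟩
        have hyK : y ∈ (insert h J)ᶜ := by
          rw [Finset.mem_compl]
          intro hyK
          exact hI y (hsub hyK) h hhI hy
        have h1 : ∑ w ∈ (insert h J)ᶜ, c' w < ∑ w ∈ (insert h J)ᶜ, c w := by
          refine Finset.sum_lt_sum (fun w hw => hle w ?_) ⟨y, hyK, hlt⟩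
          rintro rfl
          exact Finset.mem_compl.mp hw (Finset.mem_insert_self w J)
        have h2 := Finset.sum_add_sum_compl (insert h J) c'
        have h3 := Finset.sum_add_sum_compl (insert h J) c
        rw [(hY c' hc').1] at h2
        rw [(hY c hc).1] at h3
        have h4 : ∑ w ∈ insert h J, c w = c h + ∑ w ∈ J, c w := Finset.sum_insert hhJ
        rw [Finset.card_insert_of_notMem hhJ]
        omega
      · refine ⟨c, hc, ?_⟩
        rw [Finset.card_insert_of_notMem hhJ, Finset.sum_insert hhJ]
        omega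
  obtain ⟨c, hc, hcard⟩ := key I (Finset.Subset.refl I)
  refine hcard.trans ?_
  rw [← (hY c hc).1]
  exact Finset.sum_le_sum_of_subset (Finset.subset_univ I)

/-- A standard eternal family `F` with `k` guards gives the chip family of the indicator functions of its states. -/
theorem gs_le_edn (H : SimpleGraph W) : gs H ≤ edn H := by
  obtain ⟨F, ⟨D0, hD0⟩, hF⟩ := edn_exists H
  refine gs_le (Y := {c | ∃ D ∈ F, c = fun w => if w ∈ D then 1 else 0}) ⟨_, D0, hD0, rfl⟩ ?_
  rintro c ⟨D, hD, rfl⟩
  refine ⟨?_, ?_⟩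
  · rw [← (hF D hD).1, Finset.sum_ite_mem, Finset.univ_inter, Finset.sum_const, smul_eq_mul,
      mul_one]
  · intro h hh
    have hhD : h ∉ D := by
      intro hcon
      simp only [if_pos hcon] at hh
      exact one_ne_zero hh
    obtain ⟨u, hu, hadj, hnew⟩ := (hF D hD).2 h
    have huh : u ≠ h := by
      rintro rfl
      exact hhD hu
    refine ⟨_, ⟨_, hnew, rfl⟩, ?_, u, ?_, ?_⟩
    · intro w hw
      by_cases hwD : w ∈ D
      · simp only [if_pos hwD]
        split_ifs <;> omega
      · have h1 : w ∉ insert h (D.erase u) := by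
          rw [Finset.mem_insert, Finset.mem_erase]
          rintro (h2 | h2)
          · exact hw h2
          · exact hwD h2.2
        simp only [if_neg hwD, if_neg h1]
        exact le_refl 0
    · rcases hadj with h1 | h1
      · exact absurd h1 huh
      · exact h1
    · have h1 : u ∉ insert h (D.erase u) := by
        rw [Finset.mem_insert, Finset.mem_erase]
        rintro (h2 | h2)
        · exact huh h2
        · exact h2.1 rfl
      simp only [if_neg h1, if_pos hu]
      exact Nat.zero_lt_one

omit [Fintype W] in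
private theorem smalla_pair {H : SimpleGraph W} {u v : W} (h : ¬ H.Adj u v) :
    ∀ a ∈ ({u, v} : Finset W), ∀ b ∈ ({u, v} : Finset W), ¬ H.Adj a b := by
  intro a ha b hb hab
  rw [Finset.mem_insert, Finset.mem_singleton] at ha hb
  rcases ha with rfl | rfl <;> rcases hb with rfl | rfl
  · exact H.irrefl hab
  · exact h hab
  · exact h hab.symm
  · exact H.irrefl hab

private theorem smalla_two {H : SimpleGraph W} (h : 2 ≤ edn H) :
    ∃ u v : W, u ≠ v ∧ ¬ H.Adj u v := by
  by_contra hcon
  have h1 : edn H ≤ 1 := edn_le_cover H (fun _ => (0 : Fin 1)) fun u v _ huv => by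
    by_contra h2
    exact hcon ⟨u, v, huv, h2⟩
  omega

private theorem smalla_one {H : SimpleGraph W} (h : 1 ≤ edn H) : Nonempty W := by
  by_contra hcon
  rw [not_nonempty_iff] at hcon
  have h1 : edn H ≤ 0 := edn_le_cover H (fun w => (hcon.false w).elim) fun u _ _ _ =>
    (hcon.false u).elim
  omega

/-- if `edn H ≥ 2` then `H` has two nonadjacent vertices, so `gs H ≥ 2` (`card_le_gs`): a complete graph has `edn ≤ 1` (`edn_le_cover`) -/
theorem two_le_gs {H : SimpleGraph W} (h : 2 ≤ edn H) : 2 ≤ gs H := by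
  obtain ⟨u, v, huv, hadj⟩ := smalla_two h
  have h1 := card_le_gs (smalla_pair hadj)
  rwa [Finset.card_pair huv] at h1

/-- if `edn H ≥ 1` then `W` is not empty and `gs H ≥ 1` -/
theorem one_le_gs {H : SimpleGraph W} (h : 1 ≤ edn H) : 1 ≤ gs H := by
  obtain ⟨w⟩ := smalla_one h
  have h1 := card_le_gs (H := H) (I := {w}) (by
    intro a ha b hb hab
    rw [Finset.mem_singleton] at ha hb
    subst ha
    subst hb
    exact H.irrefl hab)
  rwa [Finset.card_singleton] at h1

/-- a graph with `edn ≤ 2` has `edn ≤ α`: if `α ≤ 1` the graph is complete and `edn ≤ 1`, with `edn = 0` if there are no vertices -/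
theorem edn_le_indepNum_of_le_two {H : SimpleGraph W} (h : edn H ≤ 2) : edn H ≤ H.indepNum := by
  rcases Nat.lt_or_ge (edn H) 2 with h2 | h2
  · rcases Nat.eq_zero_or_pos (edn H) with h0 | h0
    · rw [h0]; exact Nat.zero_le _
    · obtain ⟨w⟩ := smalla_one h0
      have h3 : H.IsIndepSet (({w} : Finset W) : Set W) := by
        intro a ha b hb hab
        rw [Finset.mem_coe, Finset.mem_singleton] at ha hb
        exact absurd (ha.trans hb.symm) hab
      have h4 := h3.card_le_indepNum
      rw [Finset.card_singleton] at h4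
      omega
  · obtain ⟨u, v, huv, hadj⟩ := smalla_two h2
    have h3 : H.IsIndepSet (({u, v} : Finset W) : Set W) := by
      intro a ha b hb _
      exact smalla_pair hadj a (Finset.mem_coe.mp ha) b (Finset.mem_coe.mp hb)
    have h4 := h3.card_le_indepNum
    rw [Finset.card_pair huv] at h4
    omega

end Pool.Agent.Lib.MP_56aee0_co.RW
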