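import Pool.Agent.Lib.MP_56aee0_co.RW.Base
import Pool.Agent.Lib.MP_56aee0_co.OC.Stat

/-!
# RW / StbA : a stable state has at least `edn H` guards in each layer of `A`
-/

set_option autoImplicit false

namespace Pool.Agent.Lib.MP_56aee0_co.RW

open Pool.Agent.Lib.MP_56aee0_co Pool.Agent.Lib.MP_56aee0_co.OC

variable {U W : Type} [Fintype U] [DecidableEq U] [Fintype W] [DecidableEq W]

theorem stb_layer {G : SimpleGraph U} {H : SimpleGraph W} {A : Finset U}
    (hA : ∀ a ∈ A, ∀ b ∈ A, ¬ G.Adj a b) {F : Set (Finset (U × W))} {D : Finset (U × W)}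
    (hD : Stb (G.boxProd H) (A ×ˢ (Finset.univ : Finset W)) F D) {a : U} (ha : a ∈ A) :
    edn H ≤ (Finset.univ.filter fun w : W => (a, w) ∈ D).card := by
  obtain ⟨F1, -, hDF1, hcl⟩ := hD
  set Z : Finset (U × W) := A ×ˢ (Finset.univ : Finset W) with hZdef
  have hF2 : ∀ D' ∈ {D' | D' ∈ F1 ∧ (D' ∩ Z).card = (D ∩ Z).card}, (D' ∩ Z).card = (D ∩ Z).card ∧
      ∀ v ∈ Z, ∃ u ∈ D' ∩ Z, (u = v ∨ (G.boxProd H).Adj u v) ∧
        insert v (D'.erase u) ∈ {D' | D' ∈ F1 ∧ (D' ∩ Z).card = (D ∩ Z).card} := by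
    rintro D' ⟨hD'1, hD'2⟩
    refine ⟨hD'2, fun v hv => ?_⟩
    by_cases hvD : v ∈ D'
    · refine ⟨v, Finset.mem_inter.2 ⟨hvD, hv⟩, Or.inl rfl, ?_⟩
      rw [Finset.insert_erase hvD]
      exact ⟨hD'1, hD'2⟩
    · obtain ⟨u, hu, huv, hnew⟩ := hcl D' hD'1 v hv
      refine ⟨u, hu, huv, hnew, ?_⟩
      rw [Finset.mem_inter] at hu
      have e : insert v (D'.erase u) ∩ Z = insert v ((D' ∩ Z).erase u) := by
        ext x
        simp only [Finset.mem_inter, Finset.mem_insert, Finset.mem_erase]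
        constructor
        · rintro ⟨h | h, hx⟩
          · exact Or.inl h
          · exact Or.inr ⟨h.1, h.2, hx⟩
        · rintro (h | h)
          · exact ⟨Or.inl h, by rw [h]; exact hv⟩
          · exact ⟨Or.inr ⟨h.1, h.2.1⟩, h.2.2⟩
      have hu' : u ∈ D' ∩ Z := Finset.mem_inter.2 hu
      have hv' : v ∉ (D' ∩ Z).erase u := fun h =>
        hvD (Finset.mem_inter.1 (Finset.mem_erase.1 h).2).1
      rw [e, Finset.card_insert_of_notMem hv', Finset.card_erase_of_mem hu', ← hD'2]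
      have := Finset.card_pos.2 ⟨u, hu'⟩
      omega
  have hEt := et_of_closed hF2
  have h4 := ednOn_le_nb hEt (D := D ∩ Z) ⟨D, ⟨hDF1, rfl⟩, rfl⟩
    (Z := ({a} : Finset U) ×ˢ (Finset.univ : Finset W))
    (Finset.product_subset_product_left (Finset.singleton_subset_iff.2 ha))
  have h5 := edn_le_layer G H a (Finset.univ : Finset W)
  rw [Finset.sdiff_self, Finset.card_empty, Nat.add_zero] at h5
  refine h5.trans (h4.trans ?_)
  have hsub : nb (G.boxProd H) (({a} : Finset U) ×ˢ (Finset.univ : Finset W)) (D ∩ Z) ⊆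
      ({a} : Finset U) ×ˢ (Finset.univ.filter fun w : W => (a, w) ∈ D) := by
    intro p hp
    rw [mem_nb] at hp
    obtain ⟨hpD, z, hz, hpz⟩ := hp
    rw [Finset.mem_inter, hZdef, Finset.mem_product] at hpD
    rw [Finset.mem_product, Finset.mem_singleton] at hz
    have hpa : p.1 = a := by
      rcases hpz with h | h
      · rw [h]; exact hz.1
      · rw [SimpleGraph.boxProd_adj] at h
        rcases h with h | h
        · exfalso
          have := h.1
          rw [hz.1] at this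
          exact hA _ hpD.2.1 _ ha this
        · exact h.2.trans hz.1
    rw [Finset.mem_product, Finset.mem_singleton, Finset.mem_filter]
    refine ⟨hpa, Finset.mem_univ _, ?_⟩
    rw [← hpa]
    exact hpD.1
  have h6 := Finset.card_le_card hsub
  rwa [Finset.card_product, Finset.card_singleton, one_mul] at h6

theorem stb_card {G : SimpleGraph U} {H : SimpleGraph W} {A : Finset U}
    (hA : ∀ a ∈ A, ∀ b ∈ A, ¬ G.Adj a b) {F : Set (Finset (U × W))} {D : Finset (U × W)}
    (hD : Stb (G.boxProd H) (A ×ˢ (Finset.univ : Finset W)) F D) :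
    A.card * edn H ≤ (D ∩ (A ×ˢ (Finset.univ : Finset W))).card := by
  have h1 : (D ∩ (A ×ˢ (Finset.univ : Finset W))).card =
      ∑ a ∈ A, ((D ∩ (A ×ˢ (Finset.univ : Finset W))).filter fun p => p.1 = a).card := by
    refine Finset.card_eq_sum_card_fiberwise (f := fun p : U × W => p.1) (t := A) (fun p hp => ?_)
    have hp' := Finset.mem_inter.1 (Finset.mem_coe.1 hp)
    exact Finset.mem_coe.2 (Finset.mem_product.1 hp'.2).1
  rw [h1]
  calc A.card * edn H = ∑ _a ∈ A, edn H := by rw [Finset.sum_const, smul_eq_mul]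
    _ ≤ _ := Finset.sum_le_sum fun a ha => ?_
  refine (stb_layer hA hD ha).trans ?_
  refine Finset.card_le_card_of_injOn (fun w => (a, w)) ?_ ?_
  · intro w hw
    have hw' := (Finset.mem_filter.1 (Finset.mem_coe.1 hw)).2
    exact Finset.mem_coe.2 (Finset.mem_filter.2 ⟨Finset.mem_inter.2 ⟨hw',
      Finset.mem_product.2 ⟨ha, Finset.mem_univ _⟩⟩, rfl⟩)
  · intro w _ w' _ h
    exact (Prod.ext_iff.1 h).2

end Pool.Agent.Lib.MP_56aee0_co.RW
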